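import Pool.Agent.Q330.TWE.Star

/-!
# Exact triangle by word circuits: the bounds
-/

set_option autoImplicit false

open Finset

namespace Pool.Agent.Q330.TWE

open Pool.Agent.Y631.Wc

variable {m q : ℕ} {Z : Type}

/-- One vertex. -/
theorem star_bounds {r κ θ L : ℕ} (hr : 1 ≤ r) (hq : 2 ≤ q) (hqL : q ≤ L) (hqm : q ≤ m + 1)
    [Fintype Z] (hZ : Fintype.card Z ≤ L)
    (C : WCirc (Fin (m + 1) × Fin (m + 1)) (Bool × ℤ) Z) (hκ : C.FanIn κ) (hθ : C.TreewidthLE θ)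
    (v : Fin (m + 1)) (hR : (restrict C (cells v) (back (2 * q))).reads ≤ r * m) :
    ((∀ w, Valid w → (C.Accepts w ↔ ¬ HasZero w)) →
      2 ^ (m / 2 ^ (24 * r + 1)) ≤ L ^ (10000 * r ^ 2 * (κ + 1) * (θ + 1))) ∧
    (C.Unambiguous → (∀ w, Valid w → (C.Accepts w ↔ ¬ HasZero w)) →
      q ^ (m / 2 ^ (24 * r + 1)) ≤ L ^ (10000 * r ^ 2 * (κ + 1) * (θ + 1))) ∧
    (C.Unambiguous → (∀ w, Valid w → (C.Accepts w ↔ HasZero w)) →
      q ^ (m / 2 ^ (24 * r + 1)) ≤ L ^ (10000 * r ^ 2 * (κ + 1) * (θ + 1)) + 1) := by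
  classical
  obtain ⟨k, hk⟩ : ∃ k, k = m / 2 ^ (24 * r + 1) := ⟨_, rfl⟩
  rw [← hk]
  by_cases hk0 : k = 0
  · rw [hk0]
    have h1 : 1 ≤ L ^ (10000 * r ^ 2 * (κ + 1) * (θ + 1)) := Nat.one_le_pow _ _ (by omega)
    exact ⟨fun _ => by simpa using h1, fun _ _ => by simpa using h1,
      fun _ _ => by simp⟩
  obtain ⟨h1, h2, h3, h4⟩ := numbers hr hk hk0
  obtain ⟨X1, X2, hX, hX1, hX2⟩ := halves m
  have hm1 : 1 ≤ m := by omega
  have h5 := bounds (restrict C (cells v) (back (2 * q))) hr (fanIn C _ _ hκ) (treewidth C _ _ hθ) hR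
    X1 X2 hX hX1 hX2 h1 h2 rfl h3 hq hqL hZ
    (fun x : Fin m → Bool × ℤ => ¬ HasZero (full (cells v) (back (2 * q)) x))
    (fun x => Valid (full (cells v) (back (2 * q)) x))
    (fun A hA E hE hkA hkE => star_hasInst v (Finset.disjoint_of_subset_left hA
      (Finset.disjoint_of_subset_right hE hX)) hm1 (by omega) hqm hkA hkE)
  refine ⟨fun hC => h5.1 (fun x hx => ?_), fun hU hC => h5.2.1 (unambiguous C _ _ hU)
    (fun x hx => ?_), fun hU hC => h5.2.2 (unambiguous C _ _ hU) (fun x hx => ?_)⟩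
  · rw [accepts_iff]
    exact hC _ hx
  · rw [accepts_iff]
    exact hC _ hx
  · rw [accepts_iff, hC _ hx, not_not]

/-- A vertex with few reads. -/
theorem exists_vertex (C : WCirc (Fin (m + 1) × Fin (m + 1)) (Bool × ℤ) Z)
    (bg : Fin (m + 1) × Fin (m + 1) → Bool × ℤ) :
    ∃ v, (m + 1) * (restrict C (cells v) bg).reads ≤ 2 * C.reads := by
  by_contra hcon
  push Not at hcon
  have h1 : ∑ v : Fin (m + 1), 2 * C.reads <
      ∑ v : Fin (m + 1), (m + 1) * (restrict C (cells v) bg).reads :=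
    sum_lt_sum_of_nonempty univ_nonempty fun v _ => hcon v
  rw [sum_const, card_univ, Fintype.card_fin, smul_eq_mul, ← mul_sum] at h1
  exact absurd (Nat.mul_le_mul_left (m + 1) (sum_reads C bg)) (by omega)

/-- **Exact triangle.** -/
theorem exact_bounds {r κ θ L : ℕ} (hr : 1 ≤ r) (hq : 2 ≤ q) (hqL : q ≤ L) (hqm : q ≤ m + 1)
    [Fintype Z] (hZ : Fintype.card Z ≤ L)
    (C : WCirc (Fin (m + 1) × Fin (m + 1)) (Bool × ℤ) Z) (hκ : C.FanIn κ) (hθ : C.TreewidthLE θ)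
    (hR : 2 * C.reads ≤ r * (m * (m + 1))) :
    ((∀ w, Valid w → (C.Accepts w ↔ ¬ HasZero w)) →
      2 ^ (m / 2 ^ (24 * r + 1)) ≤ L ^ (10000 * r ^ 2 * (κ + 1) * (θ + 1))) ∧
    (C.Unambiguous → (∀ w, Valid w → (C.Accepts w ↔ ¬ HasZero w)) →
      q ^ (m / 2 ^ (24 * r + 1)) ≤ L ^ (10000 * r ^ 2 * (κ + 1) * (θ + 1))) ∧
    (C.Unambiguous → (∀ w, Valid w → (C.Accepts w ↔ HasZero w)) →
      q ^ (m / 2 ^ (24 * r + 1)) ≤ L ^ (10000 * r ^ 2 * (κ + 1) * (θ + 1)) + 1) := by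
  obtain ⟨v, hv⟩ := exists_vertex C (back (2 * q))
  refine star_bounds hr hq hqL hqm hZ C hκ hθ v ?_
  have h1 : (m + 1) * (restrict C (cells v) (back (2 * q))).reads ≤ (m + 1) * (r * m) :=
    hv.trans (hR.trans (le_of_eq (by ring)))
  exact Nat.le_of_mul_le_mul_left h1 (by omega)

theorem exact_superlinear (c κ : ℕ) (ε : ℝ) (hε : 0 < ε) (hε1 : ε ≤ 1) : ∃ m₀ : ℕ,
    ∀ m ≥ m₀, ∀ (Z : Type) [Fintype Z], Fintype.card Z ≤ m ^ c →
      ∀ (C : WCirc (Fin (m + 1) × Fin (m + 1)) (Bool × ℤ) Z) (θ : ℕ), C.FanIn κ →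
        C.TreewidthLE θ → (θ : ℝ) ≤ (m : ℝ) ^ (1 - ε) → C.Unambiguous →
        ((∀ w, Valid w → (C.Accepts w ↔ HasZero w)) ∨
          (∀ w, Valid w → (C.Accepts w ↔ ¬ HasZero w))) →
        ε / 60 * (m * (m + 1) * Real.logb 2 m) ≤ C.reads := by
  obtain ⟨m₀, h2, hm₀⟩ := superlinear c κ ε hε hε1
  refine ⟨m₀, fun m hm Z _ hZ C θ hκ hθ hθm hU hC => ?_⟩
  have hm1 : 1 ≤ m := by omega
  obtain ⟨v, hv⟩ := exists_vertex C (back (2 * m))
  have hL : m ≤ m ^ (c + 1) := by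
    calc m = m ^ 1 := (pow_one m).symm
      _ ≤ m ^ (c + 1) := Nat.pow_le_pow_right hm1 (by omega)
  have hZ2 : Fintype.card Z ≤ m ^ (c + 1) :=
    hZ.trans (Nat.pow_le_pow_right hm1 (by omega))
  have h1 := hm₀ m hm (restrict C (cells v) (back (2 * m))).reads θ hθm fun r hr hR => by
    have h3 := star_bounds (q := m) (L := m ^ (c + 1)) hr (by omega) hL (by omega) hZ2 C hκ
      hθ v hR
    rcases hC with hC | hC
    · exact h3.2.2 hU hC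
    · exact (h3.2.1 hU hC).trans (Nat.le_succ _)
  have hvR : ((m : ℝ) + 1) * (restrict C (cells v) (back (2 * m))).reads ≤ 2 * C.reads := by
    exact_mod_cast hv
  have hmR : (0 : ℝ) ≤ (m : ℝ) + 1 := by positivity
  have h4 := mul_le_mul_of_nonneg_left h1 hmR
  have e1 : ε / 60 * (m * (m + 1) * Real.logb 2 m) * 2 =
      ((m : ℝ) + 1) * (ε / 30 * (m * Real.logb 2 m)) := by ring
  linarith

/-- Random circuits that are always correct. -/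
theorem exact_random (c κ : ℕ) (ε : ℝ) (hε : 0 < ε) (hε1 : ε ≤ 1) : ∃ m₀ : ℕ,
    ∀ m ≥ m₀, ∀ (Z : Type) [Fintype Z], Fintype.card Z ≤ m ^ c →
      ∀ (Ω : Type) [Fintype Ω] (p : Ω → ℝ), (∀ ω, 0 ≤ p ω) → ∑ ω, p ω = 1 →
      ∀ (C : Ω → WCirc (Fin (m + 1) × Fin (m + 1)) (Bool × ℤ) Z) (θ : ℕ),
        (θ : ℝ) ≤ (m : ℝ) ^ (1 - ε) →
        (∀ ω, (C ω).FanIn κ ∧ (C ω).TreewidthLE θ ∧ (C ω).Unambiguous ∧
          ((∀ w, Valid w → ((C ω).Accepts w ↔ HasZero w)) ∨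
            (∀ w, Valid w → ((C ω).Accepts w ↔ ¬ HasZero w)))) →
        ε / 60 * (m * (m + 1) * Real.logb 2 m) ≤ ∑ ω, p ω * (C ω).reads := by
  obtain ⟨m₀, hm₀⟩ := exact_superlinear c κ ε hε hε1
  refine ⟨m₀, fun m hm Z _ hZ Ω _ p hp hp1 C θ hθm h => ?_⟩
  calc ε / 60 * (m * (m + 1) * Real.logb 2 m) =
        ∑ ω, p ω * (ε / 60 * (m * (m + 1) * Real.logb 2 m)) := by
        rw [← Finset.sum_mul, hp1, one_mul]
    _ ≤ ∑ ω, p ω * (C ω).reads := by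
        apply Finset.sum_le_sum
        intro ω _
        apply mul_le_mul_of_nonneg_left _ (hp ω)
        obtain ⟨h1, h2, h3, h4⟩ := h ω
        exact hm₀ m hm Z hZ (C ω) θ h1 h2 hθm h3 h4

end Pool.Agent.Q330.TWE
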