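import Pool.Agent.Y631.WcModel

/-!
# Word circuits: fixing some of the variables
-/

set_option autoImplicit false

open Finset

namespace Pool.Agent.Q330.TWE

open Pool.Agent.Y631.Wc

variable {ι ι' X Z : Type}

/-- The input with the values `x t` of the variables `c` with `π c = some t` and the values `bg c`
of the other variables. -/
def full (π : ι → Option ι') (bg : ι → X) (x : ι' → X) (c : ι) : X :=
  match π c with
  | some t => x t
  | none => bg c

open Classical in
/-- The free wires from variables to a gate. -/
abbrev Wires (C : WCirc ι X Z) (π : ι → Option ι') (g : Fin C.size) : Type :=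
  {a : Fin (C.vars g) // (π (C.vsrc g a)).isSome = true}

/-- The numbering of the free wires. -/
noncomputable def num (C : WCirc ι X Z) (π : ι → Option ι') (g : Fin C.size) :
    Fin (Fintype.card (Wires C π g)) ≃ Wires C π g := (Fintype.equivFin _).symm

open Classical in
/-- The circuit with fixed variables. -/
noncomputable def restrict (C : WCirc ι X Z) (π : ι → Option ι') (bg : ι → X) : WCirc ι' X Z where
  size := C.size
  vars g := Fintype.card (Wires C π g)
  gates := C.gates
  vsrc g a := (π (C.vsrc g (num C π g a).1)).get (num C π g a).2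
  gsrc := C.gsrc
  rel g u w z := C.rel g (fun a => if h : (π (C.vsrc g a)).isSome = true then
    u ((num C π g).symm ⟨a, h⟩) else bg (C.vsrc g a)) w z
  out := C.out
  acc := C.acc
  acyclic := C.acyclic

variable (C : WCirc ι X Z) (π : ι → Option ι') (bg : ι → X)

theorem full_some {c : ι} (h : (π c).isSome = true) (x : ι' → X) :
    full π bg x c = x ((π c).get h) := by
  unfold full
  obtain ⟨t, ht⟩ := Option.isSome_iff_exists.1 h
  simp only [ht, Option.get_some]

theorem full_none {c : ι} (h : ¬ (π c).isSome = true) (x : ι' → X) :
    full π bg x c = bg c := by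
  unfold full
  rw [Bool.not_eq_true, Option.isSome_eq_false_iff, Option.isNone_iff_eq_none] at h
  simp only [h]

theorem run_iff (x : ι' → X) (w : Fin C.size → Z) :
    (restrict C π bg).Run x w ↔ C.Run (full π bg x) w := by
  unfold WCirc.Run
  refine forall_congr' fun g => ?_
  change C.rel g (fun a => if h : (π (C.vsrc g a)).isSome = true then
    x ((π (C.vsrc g (num C π g ((num C π g).symm ⟨a, h⟩)).1)).get
      (num C π g ((num C π g).symm ⟨a, h⟩)).2) else bg (C.vsrc g a)) _ _ ↔ _
  have h1 : (fun a => if h : (π (C.vsrc g a)).isSome = true then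
    x ((π (C.vsrc g (num C π g ((num C π g).symm ⟨a, h⟩)).1)).get
      (num C π g ((num C π g).symm ⟨a, h⟩)).2) else bg (C.vsrc g a)) =
      fun a => full π bg x (C.vsrc g a) := by
    funext a
    by_cases h : (π (C.vsrc g a)).isSome = true
    · rw [dif_pos h, full_some π bg h]
      rw [Equiv.apply_symm_apply]
    · rw [dif_neg h, full_none π bg h]
  rw [h1]
  exact Iff.rfl

theorem accepts_iff (x : ι' → X) : (restrict C π bg).Accepts x ↔ C.Accepts (full π bg x) := by
  unfold WCirc.Accepts
  exact exists_congr fun w => and_congr (run_iff C π bg x w) Iff.rfl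

theorem unambiguous (h : C.Unambiguous) : (restrict C π bg).Unambiguous := by
  intro x v v' h1 h2 h3 h4
  exact h (full π bg x) v v' ((run_iff C π bg x v).1 h1) h2 ((run_iff C π bg x v').1 h3) h4

theorem card_wires (g : Fin C.size) : Fintype.card (Wires C π g) ≤ C.vars g := by
  refine (Fintype.card_subtype_le _).trans ?_
  rw [Fintype.card_fin]

theorem fanIn {κ : ℕ} (h : C.FanIn κ) : (restrict C π bg).FanIn κ := by
  intro g
  have h1 := h g
  have h2 := card_wires C π g
  change Fintype.card (Wires C π g) + C.gates g ≤ κ
  omega

theorem treewidth {t : ℕ} (h : C.TreewidthLE t) : (restrict C π bg).TreewidthLE t := h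

theorem reads_eq : (restrict C π bg).reads =
    ∑ g, ∑ a : Fin (C.vars g), if (π (C.vsrc g a)).isSome = true then 1 else 0 := by
  unfold WCirc.reads
  refine sum_congr rfl fun g _ => ?_
  change Fintype.card (Wires C π g) = _
  rw [Fintype.card_subtype]
  exact card_filter _ _

end Pool.Agent.Q330.TWE
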