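import Pool.Agent.Q330.TWE.Res
import Pool.Agent.Y631.WcSup

/-!
# Exact triangle by word circuits: the instances and the bounds
-/

set_option autoImplicit false

open Finset

namespace Pool.Agent.Q330.TWE

open Pool.Agent.Y631.Wc

variable {m k q : ℕ} {Z : Type}

/-- Valid instances: a symmetric matrix without loops of pairs (flag, weight) with weights of absolute
value at most `n ^ 300`. -/
def Valid {n : ℕ} (w : Fin n × Fin n → Bool × ℤ) : Prop :=
  (∀ i j, w (i, j) = w (j, i)) ∧ (∀ i, (w (i, i)).1 = false) ∧ ∀ c, |(w c).2| ≤ (n : ℤ) ^ 300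

/-- There is a triangle of weight zero. -/
def HasZero {n : ℕ} (w : Fin n × Fin n → Bool × ℤ) : Prop :=
  ∃ i j l, i ≠ j ∧ j ≠ l ∧ i ≠ l ∧ (w (i, j)).1 = true ∧ (w (j, l)).1 = true ∧
    (w (i, l)).1 = true ∧ (w (i, j)).2 + (w (j, l)).2 + (w (i, l)).2 = 0

/-! ### The cells at a vertex -/

open Classical in
/-- The cells at the vertex `v`. -/
noncomputable def cells (v : Fin (m + 1)) (c : Fin (m + 1) × Fin (m + 1)) : Option (Fin m) :=
  if h : ∃ t, c = (v, v.succAbove t) ∨ c = (v.succAbove t, v) then some h.choose else none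

theorem cells_iff (v : Fin (m + 1)) (c : Fin (m + 1) × Fin (m + 1)) (t : Fin m) :
    cells v c = some t ↔ c = (v, v.succAbove t) ∨ c = (v.succAbove t, v) := by
  classical
  unfold cells
  constructor
  · intro h
    by_cases hc : ∃ t, c = (v, v.succAbove t) ∨ c = (v.succAbove t, v)
    · rw [dif_pos hc, Option.some.injEq] at h
      have := hc.choose_spec
      rw [h] at this
      exact this
    · rw [dif_neg hc] at h
      exact absurd h (by simp)
  · intro h
    have hc : ∃ t, c = (v, v.succAbove t) ∨ c = (v.succAbove t, v) := ⟨t, h⟩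
    rw [dif_pos hc, Option.some.injEq]
    have h2 := hc.choose_spec
    have hv : ∀ s, v ≠ v.succAbove s := fun s => (Fin.succAbove_ne v s).symm
    obtain ⟨u, hu⟩ : ∃ u, u = hc.choose := ⟨_, rfl⟩
    rw [← hu] at h2 ⊢
    rcases h with h | h <;> rcases h2 with h2 | h2 <;> rw [h, Prod.mk.injEq] at h2
    · exact (Fin.succAbove_right_injective h2.2).symm
    · exact absurd h2.1 (hv _)
    · exact absurd h2.1.symm (hv _)
    · exact (Fin.succAbove_right_injective h2.1).symm

theorem cells_none (v : Fin (m + 1)) (c : Fin (m + 1) × Fin (m + 1))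
    (h : ∀ t, c ≠ (v, v.succAbove t) ∧ c ≠ (v.succAbove t, v)) : cells v c = none := by
  rw [Option.eq_none_iff_forall_ne_some]
  intro t ht
  rcases (cells_iff v c t).1 ht with h1 | h1
  · exact (h t).1 h1
  · exact (h t).2 h1

theorem full_left (v : Fin (m + 1)) (bg : Fin (m + 1) × Fin (m + 1) → Bool × ℤ)
    (x : Fin m → Bool × ℤ) (t : Fin m) : full (cells v) bg x (v, v.succAbove t) = x t := by
  unfold full
  rw [(cells_iff v _ t).2 (Or.inl rfl)]

theorem full_right (v : Fin (m + 1)) (bg : Fin (m + 1) × Fin (m + 1) → Bool × ℤ)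
    (x : Fin m → Bool × ℤ) (t : Fin m) : full (cells v) bg x (v.succAbove t, v) = x t := by
  unfold full
  rw [(cells_iff v _ t).2 (Or.inr rfl)]

theorem full_diag (v : Fin (m + 1)) (bg : Fin (m + 1) × Fin (m + 1) → Bool × ℤ)
    (x : Fin m → Bool × ℤ) (i : Fin (m + 1)) : full (cells v) bg x (i, i) = bg (i, i) := by
  unfold full
  rw [cells_none]
  intro t
  constructor <;> intro h <;> rw [Prod.mk.injEq] at h
  · exact Fin.succAbove_ne v t (h.2.symm.trans h.1)
  · exact Fin.succAbove_ne v t (h.1.symm.trans h.2)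

theorem full_other (v : Fin (m + 1)) (bg : Fin (m + 1) × Fin (m + 1) → Bool × ℤ)
    (x : Fin m → Bool × ℤ) (s t : Fin m) :
    full (cells v) bg x (v.succAbove s, v.succAbove t) = bg (v.succAbove s, v.succAbove t) := by
  unfold full
  rw [cells_none]
  intro u
  constructor <;> intro h <;> rw [Prod.mk.injEq] at h
  · exact Fin.succAbove_ne v s h.1
  · exact Fin.succAbove_ne v t h.2

/-- Each read of a cell is counted for at most two vertices. -/
theorem sum_reads (C : WCirc (Fin (m + 1) × Fin (m + 1)) (Bool × ℤ) Z)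
    (bg : Fin (m + 1) × Fin (m + 1) → Bool × ℤ) :
    ∑ v, (restrict C (cells v) bg).reads ≤ 2 * C.reads := by
  classical
  simp only [reads_eq]
  rw [sum_comm]
  unfold WCirc.reads
  rw [mul_sum]
  refine sum_le_sum fun g _ => ?_
  rw [sum_comm]
  have h1 : ∀ a : Fin (C.vars g), ∑ v : Fin (m + 1),
      (if (cells v (C.vsrc g a)).isSome = true then 1 else 0) ≤ 2 := by
    intro a
    rw [← card_filter]
    obtain ⟨c, hc⟩ : ∃ c, c = C.vsrc g a := ⟨_, rfl⟩
    rw [← hc]
    obtain ⟨i, j⟩ := c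
    refine (card_le_card (t := {i, j}) fun v hv => ?_).trans card_le_two
    rw [mem_filter] at hv
    obtain ⟨t, ht⟩ := Option.isSome_iff_exists.1 hv.2
    rw [mem_insert, mem_singleton]
    rcases (cells_iff v _ t).1 ht with h | h <;> rw [Prod.mk.injEq] at h
    · exact Or.inl h.1.symm
    · exact Or.inr h.2.symm
  calc ∑ a : Fin (C.vars g), ∑ v : Fin (m + 1),
      (if (cells v (C.vsrc g a)).isSome = true then 1 else 0)
      ≤ ∑ _a : Fin (C.vars g), 2 := sum_le_sum fun a _ => h1 a
    _ = 2 * C.vars g := by rw [sum_const, card_univ, Fintype.card_fin, smul_eq_mul, mul_comm]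

/-! ### The instances -/

/-- The code of a pair. -/
def code (i j : Fin (m + 1)) : ℕ :=
  3 * (min (i : ℕ) j * (m + 1) + max (i : ℕ) j) + 1

theorem code_symm (i j : Fin (m + 1)) : code i j = code j i := by
  unfold code
  rw [min_comm, max_comm]

theorem code_lt (i j : Fin (m + 1)) : code i j < 3 * ((m + 1) * (m + 1)) + 1 := by
  have h1 : min (i : ℕ) j < m + 1 := lt_of_le_of_lt (min_le_left _ _) i.2
  have h2 : max (i : ℕ) j < m + 1 := max_lt i.2 j.2
  have h3 : min (i : ℕ) j * (m + 1) + max (i : ℕ) j < (m + 1) * (m + 1) := by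
    calc min (i : ℕ) j * (m + 1) + max (i : ℕ) j < min (i : ℕ) j * (m + 1) + (m + 1) := by omega
      _ = (min (i : ℕ) j + 1) * (m + 1) := by ring
      _ ≤ (m + 1) * (m + 1) := Nat.mul_le_mul_right _ h1
  unfold code
  omega

theorem code_inj {i j i' j' : Fin (m + 1)} (h : code i j = code i' j') :
    (i = i' ∧ j = j') ∨ (i = j' ∧ j = i') := by
  have h1 : max (i : ℕ) j < m + 1 := max_lt i.2 j.2
  have h1' : max (i' : ℕ) j' < m + 1 := max_lt i'.2 j'.2
  unfold code at h
  have h2 : min (i : ℕ) j * (m + 1) + max (i : ℕ) j =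
      min (i' : ℕ) j' * (m + 1) + max (i' : ℕ) j' := by omega
  have e1 : (min (i : ℕ) j * (m + 1) + max (i : ℕ) j) / (m + 1) = min (i : ℕ) j := by
    rw [mul_comm, Nat.mul_add_div (by omega), Nat.div_eq_of_lt h1, add_zero]
  have e2 : (min (i' : ℕ) j' * (m + 1) + max (i' : ℕ) j') / (m + 1) = min (i' : ℕ) j' := by
    rw [mul_comm, Nat.mul_add_div (by omega), Nat.div_eq_of_lt h1', add_zero]
  have h3 : min (i : ℕ) j = min (i' : ℕ) j' := by rw [← e1, ← e2, h2]
  have h4 : max (i : ℕ) j = max (i' : ℕ) j' := by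
    rw [h3] at h2
    omega
  by_cases h5 : (i : ℕ) = i'
  · exact Or.inl ⟨Fin.ext h5, Fin.ext (by omega)⟩
  · exact Or.inr ⟨Fin.ext (by omega), Fin.ext (by omega)⟩

/-- The constant part of the instances. -/
def back (K : ℕ) (c : Fin (m + 1) × Fin (m + 1)) : Bool × ℤ :=
  (decide (c.1 ≠ c.2), (K : ℤ) * code c.1 c.2)

open Classical in
/-- The weights at the vertex `v`. -/
noncomputable def star (K : ℕ) (v : Fin (m + 1)) (P1 P2 : Fin k → Fin m)
    (a b : Fin k → Fin q) (t : Fin m) : Bool × ℤ :=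
  if h : ∃ j, P1 j = t then
    (true, ((a h.choose : ℕ) : ℤ) -
      K * code (v.succAbove (P1 h.choose)) (v.succAbove (P2 h.choose)))
  else if h : ∃ j, P2 j = t then (true, -((b h.choose : ℕ) : ℤ)) else (false, 0)

section

variable {K : ℕ} {v : Fin (m + 1)} {P1 P2 : Fin k → Fin m}

theorem star_1 (h1 : Function.Injective P1) (a b : Fin k → Fin q) (j : Fin k) :
    star K v P1 P2 a b (P1 j) =
      (true, ((a j : ℕ) : ℤ) - K * code (v.succAbove (P1 j)) (v.succAbove (P2 j))) := by
  classical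
  have h : ∃ j', P1 j' = P1 j := ⟨j, rfl⟩
  unfold star
  rw [dif_pos h, h1 h.choose_spec]

theorem star_2 (h2 : Function.Injective P2) (hne : ∀ i j, P1 i ≠ P2 j) (a b : Fin k → Fin q)
    (j : Fin k) : star K v P1 P2 a b (P2 j) = (true, -((b j : ℕ) : ℤ)) := by
  classical
  have h : ¬ ∃ j', P1 j' = P2 j := fun ⟨j', hj'⟩ => hne _ _ hj'
  have h' : ∃ j', P2 j' = P2 j := ⟨j, rfl⟩
  unfold star
  rw [dif_neg h, dif_pos h', h2 h'.choose_spec]

theorem star_3 {t : Fin m} (h1 : ∀ j, P1 j ≠ t) (h2 : ∀ j, P2 j ≠ t) (a b : Fin k → Fin q) :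
    star K v P1 P2 a b t = (false, 0) := by
  classical
  unfold star
  rw [dif_neg (fun ⟨j, hj⟩ => h1 j hj), dif_neg (fun ⟨j, hj⟩ => h2 j hj)]

theorem zero_of_lt {K : ℕ} {u x : ℤ} (h : u = K * x) (hu : |u| < K) : x = 0 := by
  by_contra hx
  have h1 : 1 ≤ |x| := Int.one_le_abs hx
  rw [h, abs_mul, Nat.abs_cast] at hu
  nlinarith [Nat.cast_nonneg (α := ℤ) K]

/-- The pairs of vertices which form a triangle of weight zero with `v`. -/
theorem star_zero (hK : K = 2 * q) (h1 : Function.Injective P1) (h2 : Function.Injective P2)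
    (hne : ∀ i j, P1 i ≠ P2 j) (a b : Fin k → Fin q) {s t : Fin m} (hst : s ≠ t)
    (hs : (star K v P1 P2 a b s).1 = true) (ht : (star K v P1 P2 a b t).1 = true)
    (h : (star K v P1 P2 a b s).2 + (star K v P1 P2 a b t).2 +
      K * code (v.succAbove s) (v.succAbove t) = 0) : ∃ j, a j = b j := by
  classical
  have key : ∀ j l : Fin k, ((a j : ℕ) : ℤ) -
      K * code (v.succAbove (P1 j)) (v.succAbove (P2 j)) + (-((b l : ℕ) : ℤ)) +
      K * code (v.succAbove (P1 j)) (v.succAbove (P2 l)) = 0 → ∃ j, a j = b j := by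
    intro j l h
    have ha := (a j).2
    have hb := (b l).2
    have e1 : ((a j : ℕ) : ℤ) - (b l : ℕ) = K * ((code (v.succAbove (P1 j)) (v.succAbove (P2 j)) : ℤ)
        - code (v.succAbove (P1 j)) (v.succAbove (P2 l))) := by linarith
    have e2 := zero_of_lt e1 (by rw [abs_lt]; constructor <;> omega)
    have e3 : code (v.succAbove (P1 j)) (v.succAbove (P2 j)) =
        code (v.succAbove (P1 j)) (v.succAbove (P2 l)) := by omega
    rcases code_inj e3 with ⟨-, h4⟩ | ⟨h4, -⟩
    · have h5 := h2 (Fin.succAbove_right_injective h4)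
      subst h5
      refine ⟨j, Fin.ext ?_⟩
      rw [e2, mul_zero] at e1
      omega
    · exact absurd (Fin.succAbove_right_injective h4) (hne _ _)
  by_cases hs1 : ∃ j, P1 j = s
  · obtain ⟨j, rfl⟩ := hs1
    by_cases ht1 : ∃ l, P1 l = t
    · obtain ⟨l, rfl⟩ := ht1
      exfalso
      rw [star_1 h1, star_1 h1] at h
      have ha := (a j).2
      have hb := (a l).2
      have e1 : ((a j : ℕ) : ℤ) + (a l : ℕ) =
          K * ((code (v.succAbove (P1 j)) (v.succAbove (P2 j)) : ℤ) +
          code (v.succAbove (P1 l)) (v.succAbove (P2 l)) -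
          code (v.succAbove (P1 j)) (v.succAbove (P1 l))) := by linarith
      have e2 := zero_of_lt e1 (by rw [abs_lt]; constructor <;> omega)
      unfold code at e2
      omega
    · by_cases ht2 : ∃ l, P2 l = t
      · obtain ⟨l, rfl⟩ := ht2
        rw [star_1 h1, star_2 h2 hne] at h
        exact key j l h
      · rw [star_3 (fun l hl => ht1 ⟨l, hl⟩) (fun l hl => ht2 ⟨l, hl⟩)] at ht
        exact absurd ht (by simp)
  · by_cases hs2 : ∃ j, P2 j = s
    · obtain ⟨j, rfl⟩ := hs2
      by_cases ht1 : ∃ l, P1 l = t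
      · obtain ⟨l, rfl⟩ := ht1
        rw [star_1 h1, star_2 h2 hne, code_symm (v.succAbove (P2 j))] at h
        exact key l j (by linarith)
      · by_cases ht2 : ∃ l, P2 l = t
        · obtain ⟨l, rfl⟩ := ht2
          exfalso
          rw [star_2 h2 hne, star_2 h2 hne] at h
          have ha := (b j).2
          have hb := (b l).2
          have e1 : ((b j : ℕ) : ℤ) + (b l : ℕ) =
              K * ((code (v.succAbove (P2 j)) (v.succAbove (P2 l)) : ℤ)) := by linarith
          have e2 := zero_of_lt e1 (by rw [abs_lt]; constructor <;> omega)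
          unfold code at e2
          omega
        · rw [star_3 (fun l hl => ht1 ⟨l, hl⟩) (fun l hl => ht2 ⟨l, hl⟩)] at ht
          exact absurd ht (by simp)
    · rw [star_3 (fun l hl => hs1 ⟨l, hl⟩) (fun l hl => hs2 ⟨l, hl⟩)] at hs
      exact absurd hs (by simp)

/-- The answer. -/
theorem hasZero_iff (hK : K = 2 * q) (hq : 1 ≤ q) (h1 : Function.Injective P1)
    (h2 : Function.Injective P2) (hne : ∀ i j, P1 i ≠ P2 j) (a b : Fin k → Fin q) :
    HasZero (full (cells v) (back K) (star K v P1 P2 a b)) ↔ ∃ j, a j = b j := by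
  classical
  have hKpos : (0 : ℤ) < K := by rw [hK]; push_cast; omega
  have hback : ∀ s t : Fin m, (back K (v.succAbove s, v.succAbove t)).2 =
      (K : ℤ) * code (v.succAbove s) (v.succAbove t) := fun s t => rfl
  constructor
  · rintro ⟨i, j, l, hij, hjl, hil, f1, f2, f3, h⟩
    rcases Fin.eq_self_or_eq_succAbove v i with rfl | ⟨i, rfl⟩
    · rcases Fin.eq_self_or_eq_succAbove i j with hj | ⟨j, rfl⟩
      · exact absurd hj.symm hij
      rcases Fin.eq_self_or_eq_succAbove i l with hl | ⟨l, rfl⟩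
      · exact absurd hl.symm hil
      rw [full_left] at f1 f3 h
      rw [full_left, full_other, hback] at h
      exact star_zero hK h1 h2 hne a b (fun e => hjl (by rw [e])) f1 f3 (by linarith)
    rcases Fin.eq_self_or_eq_succAbove v j with rfl | ⟨j, rfl⟩
    · rcases Fin.eq_self_or_eq_succAbove j l with hl | ⟨l, rfl⟩
      · exact absurd hl.symm hjl
      rw [full_right] at f1 h
      rw [full_left] at f2 h
      rw [full_other, hback] at h
      exact star_zero hK h1 h2 hne a b (fun e => hil (by rw [e])) f1 f2 h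
    rcases Fin.eq_self_or_eq_succAbove v l with rfl | ⟨l, rfl⟩
    · rw [full_right] at f2 f3 h
      rw [full_right, full_other, hback] at h
      exact star_zero hK h1 h2 hne a b (fun e => hij (by rw [e])) f3 f2 (by linarith)
    · exfalso
      rw [full_other, full_other, full_other, hback, hback, hback] at h
      have p : ∀ s t : Fin m, (0 : ℤ) < K * code (v.succAbove s) (v.succAbove t) := by
        intro s t
        have : (0 : ℤ) < code (v.succAbove s) (v.succAbove t) := by
          unfold code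
          positivity
        positivity
      have p1 := p i j
      have p2 := p j l
      have p3 := p i l
      linarith
  · rintro ⟨j, hj⟩
    have hvne : ∀ s : Fin m, v.succAbove s ≠ v := fun s => Fin.succAbove_ne v s
    refine ⟨v.succAbove (P1 j), v, v.succAbove (P2 j), hvne _, (hvne _).symm,
      fun e => hne _ _ (Fin.succAbove_right_injective e), ?_, ?_, ?_, ?_⟩
    · rw [full_right, star_1 h1]
    · rw [full_left, star_2 h2 hne]
    · rw [full_other]
      unfold back
      rw [decide_eq_true_iff]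
      exact fun e => hne _ _ (Fin.succAbove_right_injective e)
    · rw [full_right, full_left, full_other, star_1 h1, star_2 h2 hne, hback, hj]
      ring

end

/-- The instances are valid. -/
theorem valid_inst {K : ℕ} {v : Fin (m + 1)} {P1 P2 : Fin k → Fin m} (hK : K = 2 * q) (hm : 1 ≤ m)
    (hqm : q ≤ m + 1) (h1 : Function.Injective P1)
    (h2 : Function.Injective P2) (hne : ∀ i j, P1 i ≠ P2 j) (a b : Fin k → Fin q) :
    Valid (full (cells v) (back K) (star K v P1 P2 a b)) := by
  classical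
  have hcode : ∀ i j : Fin (m + 1), (0 : ℤ) ≤ (K : ℤ) * code i j ∧
      (K : ℤ) * code i j ≤ (2 * q : ℤ) * (3 * ((m + 1) * (m + 1)) + 1) := by
    intro i j
    have h3 := code_lt i j
    have h4 : K * code i j ≤ 2 * q * (3 * ((m + 1) * (m + 1)) + 1) := by
      rw [hK]
      exact Nat.mul_le_mul_left _ h3.le
    exact ⟨mul_nonneg (Nat.cast_nonneg _) (Nat.cast_nonneg _), by exact_mod_cast h4⟩
  have hbig : (2 * q : ℤ) * (3 * ((m + 1) * (m + 1)) + 1) + q ≤ ((m + 1 : ℕ) : ℤ) ^ 300 := by
    obtain ⟨n, hn⟩ : ∃ n, n = m + 1 := ⟨_, rfl⟩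
    have hn2 : 2 ≤ n := by omega
    have e1 : 2 * q * (3 * (n * n) + 1) + q ≤ n ^ 300 := by
      have h3 : 16 ≤ n ^ 297 := by
        calc 16 = 2 ^ 4 := by norm_num
          _ ≤ n ^ 4 := Nat.pow_le_pow_left hn2 4
          _ ≤ n ^ 297 := Nat.pow_le_pow_right (by omega) (by norm_num)
      have h4 : 1 ≤ n * n := Nat.mul_pos (by omega) (by omega)
      calc 2 * q * (3 * (n * n) + 1) + q ≤ 2 * n * (3 * (n * n) + 1 * (n * n)) + n * (n * n) := by
            gcongr
            · omega
            · omega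
            · calc q ≤ n := by omega
                _ = n * 1 := (mul_one _).symm
                _ ≤ n * (n * n) := Nat.mul_le_mul_left _ h4
        _ ≤ 16 * n ^ 3 := by ring_nf; omega
        _ ≤ n ^ 297 * n ^ 3 := Nat.mul_le_mul_right _ h3
        _ = n ^ (297 + 3) := (pow_add n 297 3).symm
        _ = n ^ 300 := by norm_num
    have e2 : ((2 * q * (3 * (n * n) + 1) + q : ℕ) : ℤ) ≤ ((n ^ 300 : ℕ) : ℤ) := Int.ofNat_le.2 e1
    rw [Nat.cast_pow] at e2
    rw [← hn]
    refine le_trans (le_of_eq ?_) e2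
    rw [hn]
    push_cast
    ring
  unfold Valid
  obtain ⟨Bd, hBd⟩ : ∃ Bd : ℤ, Bd = ((m + 1 : ℕ) : ℤ) ^ 300 := ⟨_, rfl⟩
  rw [← hBd] at hbig ⊢
  refine ⟨?_, ?_, ?_⟩
  · intro i j
    rcases Fin.eq_self_or_eq_succAbove v i with rfl | ⟨i, rfl⟩
    · rcases Fin.eq_self_or_eq_succAbove i j with rfl | ⟨j, rfl⟩
      · rfl
      · rw [full_left, full_right]
    · rcases Fin.eq_self_or_eq_succAbove v j with rfl | ⟨j, rfl⟩
      · rw [full_left, full_right]
      · rw [full_other, full_other]
        unfold back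
        simp only [code_symm (v.succAbove j) (v.succAbove i), ne_comm (a := v.succAbove j)]
  · intro i
    rw [full_diag]
    simp [back]
  · have hb : ∀ c : Fin (m + 1) × Fin (m + 1), |(back K c).2| ≤ Bd := by
      intro c
      have h3 := hcode c.1 c.2
      unfold back
      simp only
      rw [abs_of_nonneg h3.1]
      have : (0 : ℤ) ≤ q := Nat.cast_nonneg _
      linarith
    have hs : ∀ t, |(star K v P1 P2 a b t).2| ≤ Bd := by
      intro t
      have hq0 : (0 : ℤ) ≤ q := Nat.cast_nonneg _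
      have hc0 := hcode v v
      by_cases ht1 : ∃ j, P1 j = t
      · obtain ⟨j, rfl⟩ := ht1
        rw [star_1 h1]
        have h3 := hcode (v.succAbove (P1 j)) (v.succAbove (P2 j))
        have h4 : ((a j : ℕ) : ℤ) < q := by exact_mod_cast (a j).2
        have h5 : (0 : ℤ) ≤ ((a j : ℕ) : ℤ) := Nat.cast_nonneg _
        simp only
        rw [abs_le]
        constructor <;> linarith
      · by_cases ht2 : ∃ j, P2 j = t
        · obtain ⟨j, rfl⟩ := ht2
          rw [star_2 h2 hne]
          have h4 : ((b j : ℕ) : ℤ) < q := by exact_mod_cast (b j).2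
          have h5 : (0 : ℤ) ≤ ((b j : ℕ) : ℤ) := Nat.cast_nonneg _
          simp only
          rw [abs_le]
          constructor <;> linarith
        · rw [star_3 (fun l hl => ht1 ⟨l, hl⟩) (fun l hl => ht2 ⟨l, hl⟩)]
          simp only [abs_zero]
          linarith
    intro c
    unfold full
    cases hc : cells v c with
    | none => exact hb c
    | some t => exact hs t

theorem star_hasInst (v : Fin (m + 1)) {A E : Finset (Fin m)} (hAE : Disjoint A E) (hm : 1 ≤ m)
    (hq : 1 ≤ q) (hqm : q ≤ m + 1) (hkA : k ≤ A.card) (hkE : k ≤ E.card) :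
    HasInst (fun x : Fin m → Bool × ℤ => ¬ HasZero (full (cells v) (back (2 * q)) x))
      (fun x => Valid (full (cells v) (back (2 * q)) x)) k q A E := by
  classical
  obtain ⟨A', hA', hA'c⟩ := Finset.exists_subset_card_eq hkA
  obtain ⟨E', hE', hE'c⟩ := Finset.exists_subset_card_eq hkE
  let P1 : Fin k → Fin m := fun j => A'.orderEmbOfFin hA'c j
  let P2 : Fin k → Fin m := fun j => E'.orderEmbOfFin hE'c j
  have h1 : Function.Injective P1 := (A'.orderEmbOfFin hA'c).injective
  have h2 : Function.Injective P2 := (E'.orderEmbOfFin hE'c).injective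
  have m1 : ∀ j, P1 j ∈ A := fun j => hA' (Finset.orderEmbOfFin_mem _ _ _)
  have m2 : ∀ j, P2 j ∈ E := fun j => hE' (Finset.orderEmbOfFin_mem _ _ _)
  have hne : ∀ i j, P1 i ≠ P2 j := fun i j h =>
    Finset.disjoint_left.1 hAE (m1 i) (h ▸ m2 j)
  refine ⟨star (2 * q) v P1 P2, ?_, ?_, fun a b => valid_inst rfl hm hqm h1 h2 hne a b,
    fun a b => ?_⟩
  · intro a b b' i hi
    by_cases ht1 : ∃ j, P1 j = i
    · obtain ⟨j, rfl⟩ := ht1
      rw [star_1 h1, star_1 h1]
    · have ht2 : ∀ j, P2 j ≠ i := fun j hj => hi (hj ▸ m2 j)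
      rw [star_3 (fun l hl => ht1 ⟨l, hl⟩) ht2, star_3 (fun l hl => ht1 ⟨l, hl⟩) ht2]
  · intro a a' b i hi
    have ht1 : ∀ j, P1 j ≠ i := fun j hj => hi (hj ▸ m1 j)
    by_cases ht2 : ∃ j, P2 j = i
    · obtain ⟨j, rfl⟩ := ht2
      rw [star_2 h2 hne, star_2 h2 hne]
    · rw [star_3 ht1 (fun l hl => ht2 ⟨l, hl⟩), star_3 ht1 (fun l hl => ht2 ⟨l, hl⟩)]
  · change ¬ HasZero (full (cells v) (back (2 * q)) (star (2 * q) v P1 P2 a b)) ↔ _
    rw [hasZero_iff rfl hq h1 h2 hne]
    push Not
    exact Iff.rfl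

end Pool.Agent.Q330.TWE
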